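import Mathlib

/-!
# Nonabelian varieties of groups all of whose members are integrable

For every odd prime `p`, every group of exponent dividing `p` and nilpotency class at most two is
(isomorphic to) the derived subgroup of some group.
-/

set_option autoImplicit false

namespace Pool.Agent.Results.MP_fbf3cb_al.OddPrimeClassTwo

open scoped commutatorElement

universe u

/-- the group `G` satisfies all the laws `w = 1`, `w ∈ L` (group words in countably many letters) -/
def Satisfies (L : Set (FreeGroup ℕ)) (G : Type u) [Group G] : Prop :=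
  ∀ w ∈ L, ∀ f : ℕ → G, FreeGroup.lift f w = 1

/-- `G` is integrable: it is isomorphic to the derived subgroup of some group -/
def HasIntegral (G : Type u) [Group G] : Prop :=
  ∃ (H : Type u) (_ : Group H), Nonempty (commutator H ≃* G)

/-- the laws `x ^ p = 1` and `[[x, y], z] = 1` -/
def laws (p : ℕ) : Set (FreeGroup ℕ) :=
  {FreeGroup.of 0 ^ p, ⁅⁅FreeGroup.of 0, FreeGroup.of 1⁆, FreeGroup.of 2⁆}

section Algebra

variable {G : Type u} [Group G]

/-- the assumptions on the group -/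
structure Cl2 (G : Type u) [Group G] (p : ℕ) : Prop where
  exp : ∀ x : G, x ^ p = 1
  cl : ∀ x y z : G, ⁅⁅x, y⁆, z⁆ = 1

variable {p : ℕ}

theorem Cl2.comm (h : Cl2 G p) (x y z : G) : ⁅x, y⁆ * z = z * ⁅x, y⁆ := by
  have := h.cl x y z
  exact (commutatorElement_eq_one_iff_mul_comm).1 this

theorem Cl2.mul_left (h : Cl2 G p) (x y z : G) : ⁅x * y, z⁆ = ⁅x, z⁆ * ⁅y, z⁆ := by
  have h1 : ⁅x * y, z⁆ = x * ⁅y, z⁆ * x⁻¹ * ⁅x, z⁆ := by
    simp only [commutatorElement_def]; group
  rw [h1, ← h.comm y z x]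
  have h2 : ⁅y, z⁆ * x * x⁻¹ * ⁅x, z⁆ = ⁅y, z⁆ * ⁅x, z⁆ := by group
  rw [h2, h.comm y z]

theorem Cl2.mul_right (h : Cl2 G p) (x y z : G) : ⁅x, y * z⁆ = ⁅x, y⁆ * ⁅x, z⁆ := by
  have h1 : ⁅x, y * z⁆ = ⁅x, y⁆ * (y * ⁅x, z⁆ * y⁻¹) := by
    simp only [commutatorElement_def]; group
  rw [h1, ← h.comm x z y]
  group

theorem Cl2.central_left (h : Cl2 G p) (c x y : G) (hc : ∀ z, c * z = z * c) :
    ⁅c * x, y⁆ = ⁅x, y⁆ := by
  rw [h.mul_left]
  have : ⁅c, y⁆ = 1 := (commutatorElement_eq_one_iff_mul_comm).2 (hc y)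
  rw [this, one_mul]

theorem Cl2.central_right (h : Cl2 G p) (c x y : G) (hc : ∀ z, c * z = z * c) :
    ⁅x, c * y⁆ = ⁅x, y⁆ := by
  rw [h.mul_right]
  have : ⁅x, c⁆ = 1 := (commutatorElement_eq_one_iff_mul_comm).2 (hc x).symm
  rw [this, one_mul]

theorem Cl2.cpow (h : Cl2 G p) (x y z : G) (n : ℕ) : ⁅x, y⁆ ^ n * z = z * ⁅x, y⁆ ^ n := by
  have : Commute (⁅x, y⁆) z := h.comm x y z
  exact (this.pow_left n)

/-- a copy of `G`, for the abelian group structure given by `x + y = x y [y, x] ^ n` with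
`n = (p + 1) / 2` -/
@[ext] structure Bare (G : Type u) (p : ℕ) : Type u where
  /-- the element -/
  val : G

/-- the sum -/
def bsum (p : ℕ) (x y : G) : G := x * y * ⁅y, x⁆ ^ ((p + 1) / 2)

theorem Cl2.half (h : Cl2 G p) (hp : Odd p) (x y : G) :
    ⁅x, y⁆ ^ ((p + 1) / 2) * ⁅x, y⁆ ^ ((p + 1) / 2) = ⁅x, y⁆ := by
  rw [← pow_add]
  have : (p + 1) / 2 + (p + 1) / 2 = p + 1 := by
    obtain ⟨k, rfl⟩ := hp
    omega
  rw [this, pow_succ, h.exp, one_mul]

theorem Cl2.inv_comm' (_h : Cl2 G p) (x y : G) : ⁅y, x⁆ = ⁅x, y⁆⁻¹ :=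
  (commutatorElement_inv x y).symm

theorem Cl2.bsum_comm (h : Cl2 G p) (hp : Odd p) (x y : G) : bsum p x y = bsum p y x := by
  unfold bsum
  have h1 : x * y = y * x * ⁅x, y⁆ := by
    rw [← h.comm x y (y * x)]
    simp only [commutatorElement_def]; group
  rw [h1, h.inv_comm' x y, mul_assoc (y * x), inv_pow]
  congr 1
  rw [mul_inv_eq_iff_eq_mul]
  exact (h.half hp x y).symm

theorem Cl2.bsum_assoc (h : Cl2 G p) (x y z : G) :
    bsum p (bsum p x y) z = bsum p x (bsum p y z) := by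
  unfold bsum
  set n := (p + 1) / 2
  have c1 : ∀ a b c : G, ⁅a, b⁆ ^ n * c = c * ⁅a, b⁆ ^ n := fun a b c => h.cpow a b c n
  have h1 : ⁅z, x * y * ⁅y, x⁆ ^ n⁆ = ⁅z, x⁆ * ⁅z, y⁆ := by
    rw [← c1 y x (x * y), h.central_right _ _ _ (c1 y x), h.mul_right]
  have h2 : ⁅y * z * ⁅z, y⁆ ^ n, x⁆ = ⁅y, x⁆ * ⁅z, x⁆ := by
    rw [← c1 z y (y * z), h.central_left _ _ _ (c1 z y), h.mul_left]
  rw [h1, h2]
  have e1 : (⁅z, x⁆ * ⁅z, y⁆) ^ n = ⁅z, x⁆ ^ n * ⁅z, y⁆ ^ n :=
    Commute.mul_pow (h.comm z x ⁅z, y⁆) n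
  have e2 : (⁅y, x⁆ * ⁅z, x⁆) ^ n = ⁅y, x⁆ ^ n * ⁅z, x⁆ ^ n :=
    Commute.mul_pow (h.comm y x ⁅z, x⁆) n
  rw [e1, e2]
  calc x * y * ⁅y, x⁆ ^ n * z * (⁅z, x⁆ ^ n * ⁅z, y⁆ ^ n)
      = x * y * (⁅y, x⁆ ^ n * z) * (⁅z, x⁆ ^ n * ⁅z, y⁆ ^ n) := by group
    _ = x * y * (z * ⁅y, x⁆ ^ n) * (⁅z, x⁆ ^ n * ⁅z, y⁆ ^ n) := by rw [c1]
    _ = x * y * z * ((⁅y, x⁆ ^ n * ⁅z, x⁆ ^ n) * ⁅z, y⁆ ^ n) := by group
    _ = x * y * z * (⁅z, y⁆ ^ n * (⁅y, x⁆ ^ n * ⁅z, x⁆ ^ n)) := by rw [c1 z y]
    _ = _ := by group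

theorem Cl2.bsum_one (_h : Cl2 G p) (x : G) : bsum p x 1 = x := by
  simp [bsum]

theorem Cl2.bsum_self_comm (_h : Cl2 G p) (x : G) (n : ℕ) : bsum p (x ^ n) x = x ^ (n + 1) := by
  unfold bsum
  have : ⁅x, x ^ n⁆ = 1 := (commutatorElement_eq_one_iff_mul_comm).2 (by
    rw [← pow_succ, ← pow_succ'])
  rw [this, one_pow, mul_one, pow_succ]

/-- the additive group -/
@[reducible] def Cl2.acg (h : Cl2 G p) (hp : Odd p) : AddCommGroup (Bare G p) where
  add x y := ⟨bsum p x.val y.val⟩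
  add_assoc x y z := Bare.ext (h.bsum_assoc x.val y.val z.val)
  zero := ⟨1⟩
  zero_add x := by
    apply Bare.ext
    show bsum p 1 x.val = x.val
    rw [h.bsum_comm hp, h.bsum_one]
  add_zero x := Bare.ext (h.bsum_one x.val)
  neg x := ⟨x.val⁻¹⟩
  nsmul := @nsmulRec _ ⟨⟨1⟩⟩ ⟨fun x y => ⟨bsum p x.val y.val⟩⟩
  zsmul := @zsmulRec _ ⟨⟨1⟩⟩ ⟨fun x y => ⟨bsum p x.val y.val⟩⟩ ⟨fun x => ⟨x.val⁻¹⟩⟩
    (@nsmulRec _ ⟨⟨1⟩⟩ ⟨fun x y => ⟨bsum p x.val y.val⟩⟩)
  neg_add_cancel x := by
    apply Bare.ext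
    show bsum p x.val⁻¹ x.val = 1
    unfold bsum
    have : ⁅x.val, x.val⁻¹⁆ = 1 := (commutatorElement_eq_one_iff_mul_comm).2 (by simp)
    rw [this]
    simp
  add_comm x y := Bare.ext (h.bsum_comm hp x.val y.val)

end Algebra

/-- a subgroup of an elementary abelian group is a direct summand -/
theorem exists_proj {A : Type u} [AddCommGroup A] {p : ℕ} [Fact p.Prime]
    (hA : ∀ x : A, p • x = 0) (D : AddSubgroup A) :
    ∃ π : A →+ A, (∀ x, π x ∈ D) ∧ ∀ x ∈ D, π x = x := by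
  let _ : Module (ZMod p) A := AddCommGroup.zmodModule (n := p) hA
  let D' : Submodule (ZMod p) A := AddSubgroup.toZModSubmodule p D
  obtain ⟨C, hC⟩ := Submodule.exists_isCompl D'
  refine ⟨(D'.subtype.comp (Submodule.projectionOnto D' C hC)).toAddMonoidHom, ?_, ?_⟩
  · intro x
    exact (Submodule.projectionOnto D' C hC x).2
  · intro x hx
    exact congrArg Subtype.val (Submodule.projectionOnto_apply_left hC ⟨x, hx⟩)

/-- there is a `ζ : G → G'` with `ζ (x y) = ζ x ζ y [x, y]` and `ζ z = z ^ 2` on `G'` -/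
theorem Cl2.exists_zeta {G : Type u} [Group G] {p : ℕ} (h : Cl2 G p) (hp : Odd p)
    (hpp : p.Prime) :
    ∃ ζ : G → G, (∀ x, ζ x ∈ commutator G) ∧ (∀ x y, ζ (x * y) = ζ x * ζ y * ⁅x, y⁆) ∧
      ∀ z ∈ commutator G, ζ z = z * z := by
  classical
  let _ : AddCommGroup (Bare G p) := h.acg hp
  have hadd : ∀ x y : Bare G p, (x + y).val = bsum p x.val y.val := fun _ _ => rfl
  have hzero : (0 : Bare G p).val = 1 := rfl
  have hneg : ∀ x : Bare G p, (-x).val = x.val⁻¹ := fun _ => rfl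
  have hn : ∀ (n : ℕ) (x : Bare G p), (n • x).val = x.val ^ n := by
    intro n x
    induction n with
    | zero => simp [hzero]
    | succ n ih =>
      rw [succ_nsmul, hadd, ih]
      exact h.bsum_self_comm x.val n
  have _ : Fact p.Prime := ⟨hpp⟩
  have hpx : ∀ x : Bare G p, p • x = 0 := by
    intro x
    apply Bare.ext
    rw [hn, h.exp, hzero]
  -- the derived subgroup is central
  have hcen : ∀ z ∈ commutator G, ∀ x : G, z * x = x * z := by
    intro z hz x
    have hle : commutator G ≤ Subgroup.center G := by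
      rw [commutator_def, Subgroup.commutator_le]
      intro a _ b _
      rw [Subgroup.mem_center_iff]
      intro g
      exact (h.comm a b g).symm
    exact ((Subgroup.mem_center_iff.1 (hle hz)) x).symm
  have hsumc : ∀ z ∈ commutator G, ∀ x : G, bsum p z x = z * x := by
    intro z hz x
    unfold bsum
    rw [(commutatorElement_eq_one_iff_mul_comm).2 (hcen z hz x).symm, one_pow, mul_one]
  -- the derived subgroup as a submodule
  let D : AddSubgroup (Bare G p) :=
    { carrier := {x | x.val ∈ commutator G}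
      add_mem' := by
        intro a b ha hb
        show bsum p a.val b.val ∈ commutator G
        rw [hsumc _ ha]
        exact (commutator G).mul_mem ha hb
      zero_mem' := (commutator G).one_mem
      neg_mem' := fun ha => (commutator G).inv_mem ha }
  obtain ⟨π, hπm', hπc'⟩ := exists_proj hpx D
  have hπm : ∀ x : Bare G p, (π x).val ∈ commutator G := hπm'
  have hπc : ∀ x : Bare G p, x.val ∈ commutator G → π x = x := hπc'
  refine ⟨fun x => (π ⟨x⟩ : Bare G p).val * (π ⟨x⟩ : Bare G p).val, ?_, ?_, ?_⟩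
  · intro x
    exact (commutator G).mul_mem (hπm _) (hπm _)
  · intro x y
    -- x * y = x + y + [x, y] ^ n
    set n := (p + 1) / 2 with hn'
    have hcomm : ⁅x, y⁆ ∈ commutator G :=
      Subgroup.commutator_mem_commutator (Subgroup.mem_top x) (Subgroup.mem_top y)
    have hcn := (commutator G).pow_mem hcomm n
    have e1 : bsum p (bsum p x y) (⁅x, y⁆ ^ n) = x * y := by
      rw [h.bsum_comm hp, hsumc _ hcn]
      unfold bsum
      rw [h.cpow, ← hn', h.inv_comm' x y, inv_pow]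
      group
    have e2 : (⟨x * y⟩ : Bare G p) = ⟨x⟩ + ⟨y⟩ + ⟨⁅x, y⁆ ^ n⟩ := by
      apply Bare.ext
      rw [hadd, hadd, e1]
    have e4 : (π ⟨x * y⟩ : Bare G p).val =
        (π ⟨x⟩ : Bare G p).val * (π ⟨y⟩ : Bare G p).val * ⁅x, y⁆ ^ n := by
      rw [e2, map_add, map_add, hadd, hadd,
        hπc ⟨⁅x, y⁆ ^ n⟩ hcn, hsumc _ (hπm _), hsumc _ ((commutator G).mul_mem (hπm _) (hπm _))]
    show (π ⟨x * y⟩ : Bare G p).val * (π ⟨x * y⟩ : Bare G p).val = _
    rw [e4]
    have c1 := hcen _ (hπm ⟨x⟩)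
    have c2 := hcen _ (hπm ⟨y⟩)
    have c3 : ∀ z, ⁅x, y⁆ ^ n * z = z * ⁅x, y⁆ ^ n := fun z => h.cpow x y z n
    set a := (π ⟨x⟩ : Bare G p).val
    set b := (π ⟨y⟩ : Bare G p).val
    calc a * b * ⁅x, y⁆ ^ n * (a * b * ⁅x, y⁆ ^ n)
        = a * b * (⁅x, y⁆ ^ n * (a * b)) * ⁅x, y⁆ ^ n := by group
      _ = a * b * (a * b) * (⁅x, y⁆ ^ n * ⁅x, y⁆ ^ n) := by rw [c3]; group
      _ = a * (b * a) * b * ⁅x, y⁆ := by rw [h.half hp]; group
      _ = a * a * (b * b) * ⁅x, y⁆ := by rw [c2 a]; group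
  · intro z hz
    show (π ⟨z⟩ : Bare G p).val * (π ⟨z⟩ : Bare G p).val = z * z
    rw [hπc ⟨z⟩ hz]

/-- every group of class at most two and of exponent dividing the odd prime `p` is a derived
subgroup -/
theorem Cl2.hasIntegral {G : Type u} [Group G] {p : ℕ} (h : Cl2 G p) (hp : Odd p)
    (hpp : p.Prime) : HasIntegral G := by
  obtain ⟨ζ, h1, h2, h3⟩ := h.exists_zeta hp hpp
  have hcen : ∀ z ∈ commutator G, ∀ x : G, z * x = x * z := by
    intro z hz x
    have hle : commutator G ≤ Subgroup.center G := by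
      rw [commutator_def, Subgroup.commutator_le]
      intro a _ b _
      rw [Subgroup.mem_center_iff]
      intro g
      exact (h.comm a b g).symm
    exact ((Subgroup.mem_center_iff.1 (hle hz)) x).symm
  have c1 : ∀ x z, ζ x * z = z * ζ x := fun x z => hcen _ (h1 x) z
  -- the automorphism
  let τ : G →* G :=
    MonoidHom.mk' (fun x => x⁻¹ * ζ x) (by
      intro x y
      show (x * y)⁻¹ * ζ (x * y) = x⁻¹ * ζ x * (y⁻¹ * ζ y)
      rw [h2]
      have e : (x * y)⁻¹ = x⁻¹ * y⁻¹ * ⁅x, y⁆⁻¹ := by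
        have e0 : (x * y)⁻¹ = ⁅y⁻¹, x⁻¹⁆ * (x⁻¹ * y⁻¹) := by
          simp only [commutatorElement_def]; group
        have e5 : ⁅y⁻¹, x⁻¹⁆ = ⁅x, y⁆⁻¹ := by
          have e6 : ∀ a b : G, ⁅a⁻¹, b⁆ = ⁅a, b⁆⁻¹ := by
            intro a b
            have : ⁅a⁻¹ * a, b⁆ = ⁅a⁻¹, b⁆ * ⁅a, b⁆ := h.mul_left _ _ _
            rw [inv_mul_cancel, commutatorElement_one_left] at this
            exact eq_inv_of_mul_eq_one_left this.symm
          have e7 : ∀ a b : G, ⁅a, b⁻¹⁆ = ⁅a, b⁆⁻¹ := by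
            intro a b
            rw [← commutatorElement_inv, e6, commutatorElement_inv]
          rw [e6, e7, inv_inv, commutatorElement_inv]
        rw [e0, e5, h.inv_comm' y x, inv_inv, h.comm]
      rw [e]
      calc x⁻¹ * y⁻¹ * ⁅x, y⁆⁻¹ * (ζ x * ζ y * ⁅x, y⁆)
          = x⁻¹ * y⁻¹ * ⁅x, y⁆⁻¹ * ((ζ x * ζ y) * ⁅x, y⁆) := by group
        _ = x⁻¹ * y⁻¹ * ⁅x, y⁆⁻¹ * (⁅x, y⁆ * (ζ x * ζ y)) := by rw [h.comm]
        _ = x⁻¹ * (y⁻¹ * ζ x) * ζ y := by group
        _ = x⁻¹ * ζ x * (y⁻¹ * ζ y) := by rw [← c1 x y⁻¹]; group)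
  have hτ : ∀ x, τ x = x⁻¹ * ζ x := fun _ => rfl
  have hτc : ∀ z ∈ commutator G, τ z = z := by
    intro z hz
    rw [hτ, h3 z hz]
    group
  have hττ : ∀ x, τ (τ x) = x := by
    intro x
    rw [hτ x, map_mul, map_inv, hτc _ (h1 x), hτ, mul_inv_rev, inv_inv, mul_assoc,
      ← c1 x x, ← mul_assoc, inv_mul_cancel, one_mul]
  let τ' : G ≃* G :=
    { τ with
      invFun := τ
      left_inv := hττ
      right_inv := hττ }
  have hτ' : ∀ x, τ' x = x⁻¹ * ζ x := fun _ => rfl
  let φ : Multiplicative ℤ →* MulAut G := zpowersHom (MulAut G) τ'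
  have hφ : φ (Multiplicative.ofAdd 1) = τ' := by
    simp [φ]
  refine ⟨G ⋊[φ] Multiplicative ℤ, inferInstance, ?_⟩
  have key : commutator (G ⋊[φ] Multiplicative ℤ) = (SemidirectProduct.inl :
      G →* G ⋊[φ] Multiplicative ℤ).range := by
    apply le_antisymm
    · rw [SemidirectProduct.range_inl_eq_ker_rightHom]
      exact Abelianization.commutator_subset_ker _
    · rintro _ ⟨x, rfl⟩
      set H := G ⋊[φ] Multiplicative ℤ
      have hc : ∀ z ∈ commutator G, (SemidirectProduct.inl z : H) ∈ commutator H := by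
        intro z hz
        have : (commutator G).map (SemidirectProduct.inl : G →* H) ≤ commutator H := by
          rw [commutator_def, Subgroup.map_commutator]
          exact Subgroup.commutator_mono le_top le_top
        exact this ⟨z, hz, rfl⟩
      have hx : ∀ x : G, (SemidirectProduct.inl (x⁻¹ * x⁻¹) : H) ∈ commutator H := by
        intro x
        have e1 : ⁅(SemidirectProduct.inr (Multiplicative.ofAdd (1 : ℤ)) : H),
            (SemidirectProduct.inl x : H)⁆ ∈ commutator H := by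
          rw [commutator_def]
          exact Subgroup.commutator_mem_commutator (Subgroup.mem_top _) (Subgroup.mem_top _)
        have e2 : ⁅(SemidirectProduct.inr (Multiplicative.ofAdd (1 : ℤ)) : H),
            (SemidirectProduct.inl x : H)⁆ =
            SemidirectProduct.inl (x⁻¹ * x⁻¹) * SemidirectProduct.inl (ζ x) := by
          rw [commutatorElement_def, ← map_inv (SemidirectProduct.inr : _ →* H),
            ← SemidirectProduct.inl_aut, hφ, hτ',
            ← map_inv, ← map_mul, ← map_mul, mul_assoc, mul_assoc, c1 x]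
        rw [e2] at e1
        exact (Subgroup.mul_mem_cancel_right _ (hc _ (h1 x))).1 e1
      obtain ⟨k, hk⟩ := hp
      have e8 : x = (x⁻¹ * x⁻¹) ^ k := by
        have e9 : (x⁻¹ * x⁻¹) ^ k * x⁻¹ = 1 := by
          rw [← pow_two, ← pow_mul, ← pow_succ, ← hk, inv_pow, h.exp, inv_one]
        exact (mul_inv_eq_one.1 e9).symm
      rw [e8, map_pow]
      exact (commutator H).pow_mem (hx x) k
  rw [key]
  exact ⟨(MonoidHom.ofInjective (SemidirectProduct.inl_injective)).symm⟩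

/-- the Heisenberg group over `ZMod p` -/
@[ext] structure Heis (p : ℕ) where
  /-- first coordinate -/
  a : ZMod p
  /-- second coordinate -/
  b : ZMod p
  /-- central coordinate -/
  c : ZMod p

/-- the group structure of the Heisenberg group -/
instance (p : ℕ) : Group (Heis p) where
  mul x y := ⟨x.a + y.a, x.b + y.b, x.c + y.c + x.a * y.b⟩
  one := ⟨0, 0, 0⟩
  inv x := ⟨-x.a, -x.b, -x.c + x.a * x.b⟩
  mul_assoc x y z := by
    apply Heis.ext
    · exact add_assoc _ _ _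
    · exact add_assoc _ _ _
    · show x.c + y.c + x.a * y.b + z.c + (x.a + y.a) * z.b =
        x.c + (y.c + z.c + y.a * z.b) + x.a * (y.b + z.b)
      ring
  one_mul x := by
    apply Heis.ext
    · exact zero_add _
    · exact zero_add _
    · show 0 + x.c + 0 * x.b = x.c
      ring
  mul_one x := by
    apply Heis.ext
    · exact add_zero _
    · exact add_zero _
    · show x.c + 0 + x.a * 0 = x.c
      ring
  inv_mul_cancel x := by
    apply Heis.ext
    · exact neg_add_cancel _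
    · exact neg_add_cancel _
    · show -x.c + x.a * x.b + x.c + -x.a * x.b = 0
      ring

theorem heis_mul {p : ℕ} (x y : Heis p) :
    x * y = ⟨x.a + y.a, x.b + y.b, x.c + y.c + x.a * y.b⟩ := rfl

theorem heis_one {p : ℕ} : (1 : Heis p) = ⟨0, 0, 0⟩ := rfl

theorem heis_inv {p : ℕ} (x : Heis p) : x⁻¹ = ⟨-x.a, -x.b, -x.c + x.a * x.b⟩ := rfl

theorem heis_pow {p : ℕ} (x : Heis p) (n : ℕ) :
    x ^ n = ⟨n * x.a, n * x.b, n * x.c + (n.choose 2 : ℕ) * (x.a * x.b)⟩ := by
  induction n with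
  | zero => simp [heis_one]
  | succ n ih =>
    rw [pow_succ, ih, heis_mul]
    have h1 : (n + 1).choose 2 = n + n.choose 2 := by
      rw [Nat.choose_succ_succ' n 1, Nat.choose_one_right]
    apply Heis.ext
    · push_cast; ring
    · push_cast; ring
    · rw [h1]; push_cast; ring

theorem heis_cl2 {p : ℕ} (hp : p.Prime) (h2 : Odd p) : Cl2 (Heis p) p where
  exp x := by
    have h3 : ((p.choose 2 : ℕ) : ZMod p) = 0 := by
      rw [ZMod.natCast_eq_zero_iff]
      apply hp.dvd_choose_self (by norm_num)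
      rcases hp.eq_two_or_odd' with h | _
      · subst h; exact absurd h2 (by decide)
      · have := hp.two_le
        rcases this.lt_or_eq with h | h
        · exact h
        · subst h; exact absurd h2 (by decide)
    rw [heis_pow, h3, heis_one]
    simp
  cl x y z := by
    simp only [commutatorElement_def, heis_mul, heis_inv, heis_one]
    apply Heis.ext <;> ring

theorem satisfies_laws {G : Type u} [Group G] {p : ℕ} : Satisfies (laws p) G ↔ Cl2 G p := by
  constructor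
  · intro h
    refine ⟨?_, ?_⟩
    · intro x
      have := h (FreeGroup.of 0 ^ p) (Or.inl rfl) (fun _ => x)
      simpa using this
    · intro x y z
      have := h ⁅⁅FreeGroup.of 0, FreeGroup.of 1⁆, FreeGroup.of 2⁆ (Or.inr rfl)
        (fun n => if n = 0 then x else if n = 1 then y else z)
      simpa [map_commutatorElement] using this
  · rintro h w (rfl | rfl) f
    · simpa using h.exp (f 0)
    · simpa [map_commutatorElement] using h.cl (f 0) (f 1) (f 2)

/-- **There are nonabelian varieties of groups in which every group has an integral.** For every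
odd prime `p`, the variety of groups with the laws `x ^ p = 1` and `[[x, y], z] = 1` contains a
nonabelian group, and each of its members is isomorphic to the derived subgroup of some group. -/
theorem result (p : ℕ) (hp : p.Prime) (h2 : Odd p) :
    (∃ (G : Type) (_ : Group G), Satisfies (laws p) G ∧ ∃ a b : G, a * b ≠ b * a) ∧
      ∀ (G : Type u) [Group G], Satisfies (laws p) G → HasIntegral G := by
  constructor
  · refine ⟨Heis p, inferInstance, satisfies_laws.2 (heis_cl2 hp h2), ⟨1, 0, 0⟩, ⟨0, 1, 0⟩, ?_⟩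
    intro h
    have h3 := congrArg Heis.c h
    simp only [heis_mul] at h3
    have : Fact p.Prime := ⟨hp⟩
    simp at h3
  · intro G _ h
    exact (satisfies_laws.1 h).hasIntegral h2 hp

end Pool.Agent.Results.MP_fbf3cb_al.OddPrimeClassTwo
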